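import Pool.Agent.Helper94.DT.DD
import Pool.Agent.Helper27.DT.S1

/-! # DT, part S2 -/

set_option autoImplicit false
set_option linter.unusedSectionVars false

open Polynomial Finset DirectSum

namespace Pool.Agent.Helper2.DT

open Pool.Agent.Helper766_CF Pool.Agent.Helper766_CG Pool.Agent.Helper766_CH
open Pool.Agent.Helper58.CS Pool.Agent.Helper58.OP Pool.Agent.Helper58.SH Pool.Agent.Helper58.BG
open Pool.Agent.Helper58.LC Pool.Agent.Helper58.NS Pool.Agent.Helper17.DT
open Pool.Agent.Helper94.DT (cw coeff_cw cw_mul exists_ext_der)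

/-- `D` applied to the coefficients, and division by `ε` -/
noncomputable def sh {K : Type} [Field K] [Algebra ℂ K] (D : Derivation ℂ K K) :
    PowerSeries K →ₗ[ℂ] PowerSeries K where
  toFun p := PowerSeries.mk fun n => D (PowerSeries.coeff (n + 1) p)
  map_add' a b := by ext n; simp
  map_smul' c a := by
    ext n
    have e : ∀ (p : PowerSeries K) (n : ℕ), PowerSeries.coeff n (c • p) = c • PowerSeries.coeff n p :=
      fun p n => rfl
    rw [RingHom.id_apply, e, PowerSeries.coeff_mk, PowerSeries.coeff_mk, e, Derivation.map_smul]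

lemma coeff_sh {K : Type} [Field K] [Algebra ℂ K] (D : Derivation ℂ K K) (p : PowerSeries K)
    (n : ℕ) : PowerSeries.coeff n (sh D p) = D (PowerSeries.coeff (n + 1) p) := by
  simp [sh]

lemma X_sh {K : Type} [Field K] [Algebra ℂ K] (D : Derivation ℂ K K) (p : PowerSeries K)
    (h : D (PowerSeries.coeff 0 p) = 0) : PowerSeries.X * sh D p = cw D p := by
  ext n
  rw [coeff_cw]
  cases n with
  | zero => rw [h, PowerSeries.coeff_zero_X_mul]
  | succ n => rw [PowerSeries.coeff_succ_X_mul, coeff_sh]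

/-- a linear map applied to the coefficients of a polynomial -/
noncomputable def cm {A : Type} [CommRing A] [Algebra ℂ A] (T : A →ₗ[ℂ] A) : A[X] →ₗ[ℂ] A[X] :=
  Polynomial.lsum fun i => ((Polynomial.monomial i : A →ₗ[A] A[X]).restrictScalars ℂ).comp T

lemma coeff_cm {A : Type} [CommRing A] [Algebra ℂ A] (T : A →ₗ[ℂ] A) (q : A[X]) (i : ℕ) :
    (cm T q).coeff i = T (q.coeff i) := by
  have h : cm T q = ∑ l ∈ q.support, Polynomial.monomial l (T (q.coeff l)) := rfl
  rw [h, Polynomial.finsetSum_coeff]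
  simp only [Polynomial.coeff_monomial]
  rw [Finset.sum_ite_eq' q.support i]
  split_ifs with h1
  · rfl
  · rw [Polynomial.notMem_support_iff.1 h1, map_zero]

lemma cm_mul {A : Type} [CommRing A] [Algebra ℂ A] (T : A →ₗ[ℂ] A)
    (hT : ∀ a b, T (a * b) = a * T b + b * T a) (p q : A[X]) :
    cm T (p * q) = p * cm T q + q * cm T p := by
  ext i
  rw [coeff_cm, Polynomial.coeff_add, mul_comm q, Polynomial.coeff_mul, Polynomial.coeff_mul,
    Polynomial.coeff_mul, map_sum, ← Finset.sum_add_distrib]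
  refine Finset.sum_congr rfl fun u _ => ?_
  rw [hT, coeff_cm, coeff_cm]
  ring

variable {R : Type} [CommRing R] [Algebra ℂ R] {𝒜 : ℕ → Submodule ℂ R} [GradedAlgebra 𝒜]
  {br : R →ₗ[ℂ] R →ₗ[ℂ] R} {k : Type} [Field k] [Algebra ℂ k]

/-- S2, with S1 as a hypothesis -/
theorem sub0_of {K : Type} [Field K] [Algebra ℂ K] (j : k →ₐ[ℂ] K) {m : ℕ}
    {s : Fin m → K} {D : Fin m → Derivation ℂ K K} (hD : ∀ i a, D i (j a) = 0)
    (hDs : ∀ i l, D i (s l) = if i = l then 1 else 0) {f : R →ₐ[ℂ] k[X]}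
    {V : Fin m → R →ₗ[ℂ] k[X]}
    {F : R →ₐ[ℂ] (PowerSeries K)[X]}
    (hF : ∀ r i, PowerSeries.coeff 0 ((F r).coeff i) = j ((f r).coeff i))
    (hF1 : ∀ r i, PowerSeries.coeff 1 ((F r).coeff i) = ∑ l, s l * j ((V l r).coeff i))
    {lam : Kc K}
    (hS1 : ∀ w : Fin m → R →ₗ[ℂ] (PowerSeries K)[X],
      (∀ l r i, PowerSeries.coeff 0 ((w l r).coeff i) = j ((V l r).coeff i)) →
      (∀ l, IsDer F (w l)) → ∀ δ : R →ₗ[ℂ] Kc K, DerAt (toK F) lam δ →
      ∃ c : Fin m → Kc K, ∀ r, δ r =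
        ∑ l, c l * ((w l r).map (algebraMap (PowerSeries K) (Kc K))).eval lam) :
    Sub0 (toK F) lam := by
  intro δ hδ
  obtain ⟨w, hw⟩ : ∃ w : Fin m → R →ₗ[ℂ] (PowerSeries K)[X],
      ∀ l r, w l r = cm (sh (D l)) (F r) :=
    ⟨fun l => (cm (sh (D l))).comp F.toLinearMap, fun l r => rfl⟩
  have hwc : ∀ l r i, (w l r).coeff i = sh (D l) ((F r).coeff i) := fun l r i => by
    rw [hw, coeff_cm]
  have hX : ∀ l r, Polynomial.C PowerSeries.X * w l r = cm (cw (D l)) (F r) := by
    intro l r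
    ext1 i
    rw [Polynomial.coeff_C_mul, hwc, coeff_cm, X_sh]
    rw [hF, hD]
  have hCX : (Polynomial.C PowerSeries.X : (PowerSeries K)[X]) ≠ 0 := by
    rw [Ne, Polynomial.C_eq_zero]
    exact PowerSeries.X_ne_zero
  have hder : ∀ l, IsDer F (w l) := by
    refine fun l => ⟨fun a b => ?_⟩
    apply mul_left_cancel₀ hCX
    rw [hX, map_mul, cm_mul _ (cw_mul (D l)), ← hX, ← hX]
    ring
  have hw0 : ∀ l r i, PowerSeries.coeff 0 ((w l r).coeff i) = j ((V l r).coeff i) := by
    intro l r i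
    rw [hwc, coeff_sh, zero_add, hF1, map_sum, Finset.sum_eq_single l]
    · rw [Derivation.leibniz, hD, hDs, if_pos rfl, smul_zero, zero_add, smul_eq_mul, mul_one]
    · intro l' _ hl'
      rw [Derivation.leibniz, hD, hDs, if_neg (Ne.symm hl'), smul_zero, smul_zero, zero_add]
    · intro h
      exact absurd (Finset.mem_univ l) h
  obtain ⟨c, hc⟩ := hS1 w hw0 hder δ hδ
  choose D' hD' using fun l => exists_ext_der (D l)
  set ε : Kc K := algebraMap (PowerSeries K) (Kc K) PowerSeries.X with hε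
  have hinj : Function.Injective (algebraMap (PowerSeries K) (Kc K)) := by
    rw [IsScalarTower.algebraMap_eq (PowerSeries K) (FractionRing (PowerSeries K)) (Kc K)]
    exact (algebraMap (FractionRing (PowerSeries K)) (Kc K)).injective.comp
      (IsFractionRing.injective (PowerSeries K) (FractionRing (PowerSeries K)))
  have hε0 : ε ≠ 0 := by
    intro h
    exact PowerSeries.X_ne_zero (hinj (by rw [← hε, h, map_zero]))
  refine ⟨∑ l, (c l * ε⁻¹) • D' l, fun r => ?_⟩
  rw [hc r]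
  have h1 : ∀ i, (toK F r).coeff i = algebraMap (PowerSeries K) (Kc K) ((F r).coeff i) := by
    intro i
    exact Polynomial.coeff_map _ _
  have h2 : ∀ l i, (D' l) (algebraMap (PowerSeries K) (Kc K) ((F r).coeff i)) =
      ε * algebraMap (PowerSeries K) (Kc K) ((w l r).coeff i) := by
    intro l i
    rw [hD', hwc, hε, ← map_mul, X_sh _ _ (by rw [hF, hD])]
    rfl
  have hN : ∀ i, (F r).natDegree < i → (F r).coeff i = 0 := fun i hi =>
    Polynomial.coeff_eq_zero_of_natDegree_lt hi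
  have hNw : ∀ l, (w l r).natDegree ≤ (F r).natDegree := by
    intro l
    rw [Polynomial.natDegree_le_iff_coeff_eq_zero]
    intro i hi
    rw [hwc, hN i hi, map_zero]
  rw [Polynomial.sum_over_range' _ _ ((F r).natDegree + 1)]
  · have h3 : ∀ l, ((w l r).map (algebraMap (PowerSeries K) (Kc K))).eval lam =
        ∑ i ∈ range ((F r).natDegree + 1),
          algebraMap (PowerSeries K) (Kc K) ((w l r).coeff i) * lam ^ i := by
      intro l
      rw [Polynomial.eval_eq_sum_range' (n := (F r).natDegree + 1)]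
      · exact Finset.sum_congr rfl fun i _ => by rw [Polynomial.coeff_map]
      · exact Nat.lt_succ_of_le ((Polynomial.natDegree_map_le).trans (hNw l))
    have h4 : ∀ x : Kc K, (∑ l, (c l * ε⁻¹) • D' l : Derivation ℂ (Kc K) (Kc K)) x =
        ∑ l, c l * ε⁻¹ * D' l x := by
      intro x
      rw [← Derivation.coeFnAddMonoidHom_apply, map_sum, Finset.sum_apply]
      rfl
    simp only [h3, h4, h1, h2]
    simp only [Finset.mul_sum, Finset.sum_mul]
    rw [Finset.sum_comm]
    refine Finset.sum_congr rfl fun i _ => Finset.sum_congr rfl fun l _ => ?_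
    field_simp
  · exact Nat.lt_succ_of_le Polynomial.natDegree_map_le
  · intro n
    rw [map_zero, zero_mul]

/-- S2 -/
theorem sub0_int (C : Core 𝒜 br) {K : Type} [Field K] [Algebra ℂ K] (j : k →ₐ[ℂ] K) {m : ℕ}
    {s : Fin m → K} {D : Fin m → Derivation ℂ K K} (hD : ∀ i a, D i (j a) = 0)
    (hDs : ∀ i l, D i (s l) = if i = l then 1 else 0) {f : R →ₐ[ℂ] k[X]} (hen : EN 𝒜 f)
    {V : Fin m → R →ₗ[ℂ] k[X]}
    (hham : ∀ h, ∃ p : Fin m → k[X], ∀ r, f (br h r) = ∑ i, p i * V i r)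
    {F : R →ₐ[ℂ] (PowerSeries K)[X]}
    (hF : ∀ r i, PowerSeries.coeff 0 ((F r).coeff i) = j ((f r).coeff i))
    (hF1 : ∀ r i, PowerSeries.coeff 1 ((F r).coeff i) = ∑ l, s l * j ((V l r).coeff i))
    {𝒱 : ValuationSubring (Kc K)} (h𝒱 : ∀ p, algebraMap (PowerSeries K) (Kc K) p ∈ 𝒱)
    (hε : 𝒱.valuation (algebraMap (PowerSeries K) (Kc K) PowerSeries.X) < 1) {lam : Kc K}
    (hlam : lam ∈ 𝒱) : Sub0 (toK F) lam :=
  sub0_of j hD hDs hF hF1 fun _ hw hder _ hδ =>
    Pool.Agent.Helper27.DT.sub_int C j hen hham hF hw hder h𝒱 hε hlam hδ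

end Pool.Agent.Helper2.DT
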